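import Mathlib
import Pool.Agent.Helper44.CK.Ev

/-!
# Splitting of cells, with the names of helper44 (helper93)
-/

set_option autoImplicit false

namespace Pool.Agent.Helper44.CK

open Finset

/-- the midpoint of two vertices, fieldwise when all sums are even -/
def md (v w : ℕ) : ℕ := Nat.shiftRight (Nat.add v w) 1

/-- all four sums of fields are even -/
def pa (v w : ℕ) : Bool := Nat.beq (Nat.land (Nat.add v w) 79228162532711081671548469249) 0

lemma fl_eq (d v : ℕ) : fl d v = v / 2 ^ d % 4294967296 := by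
  unfold fl
  change (v >>> d) % 4294967296 = _
  rw [Nat.shiftRight_eq_div_pow]

lemma decomp {v : ℕ} (hv : v < 2 ^ 128) :
    v = fl 0 v + 4294967296 * fl 32 v + 18446744073709551616 * fl 64 v
      + 79228162514264337593543950336 * fl 96 v := by
  rw [fl_eq, fl_eq, fl_eq, fl_eq]
  norm_num at hv ⊢
  omega

lemma mask_bits : (79228162532711081671548469249 : ℕ).testBit 0 = true ∧ (79228162532711081671548469249 : ℕ).testBit 32 = true ∧ (79228162532711081671548469249 : ℕ).testBit 64 = true ∧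
    (79228162532711081671548469249 : ℕ).testBit 96 = true := by decide

lemma bit_of_land {s i : ℕ} (h : Nat.land s (79228162532711081671548469249 : ℕ) = 0) (hi : (79228162532711081671548469249 : ℕ).testBit i = true) :
    s / 2 ^ i % 2 = 0 := by
  have h1 : (s &&& (79228162532711081671548469249 : ℕ)).testBit i = (0 : ℕ).testBit i := by
    rw [show s &&& (79228162532711081671548469249 : ℕ) = Nat.land s (79228162532711081671548469249 : ℕ) from rfl, h]
  rw [Nat.testBit_and, hi, Bool.and_true, Nat.zero_testBit] at h1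
  have h2 := Nat.testBit_eq_decide_div_mod_eq (x := s) (i := i)
  rw [h1] at h2
  have h3 : ¬ (s / 2 ^ i % 2 = 1) := by
    intro h4
    rw [h4] at h2
    simp at h2
  omega

/-- **The midpoint.** -/
theorem md_fl {a b : ℕ} (ha : Gd a) (hb : Gd b) (h : pa a b = true) :
    (2 * fl 0 (md a b) = fl 0 a + fl 0 b ∧ 2 * fl 32 (md a b) = fl 32 a + fl 32 b ∧
      2 * fl 64 (md a b) = fl 64 a + fl 64 b ∧ 2 * fl 96 (md a b) = fl 96 a + fl 96 b) ∧
      md a b < 2 ^ 128 := by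
  have hl : Nat.land (a + b) (79228162532711081671548469249 : ℕ) = 0 := Nat.eq_of_beq_eq_true h
  obtain ⟨o0, o1, o2, o3⟩ := mask_bits
  have p0 := bit_of_land hl o0
  have p1 := bit_of_land hl o1
  have p2 := bit_of_land hl o2
  have p3 := bit_of_land hl o3
  have da := decomp ha.lt
  have db := decomp hb.lt
  have a0 := ha.b0
  have a1 := ha.b1
  have a2 := ha.b2
  have a3 := ha.b3
  have b0 := hb.b0
  have b1 := hb.b1
  have b2 := hb.b2
  have b3 := hb.b3
  have hm : md a b = (a + b) / 2 := by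
    show (a + b) >>> 1 = _
    rw [Nat.shiftRight_eq_div_pow, pow_one]
  rw [hm, fl_eq 0 ((a + b) / 2), fl_eq 32 ((a + b) / 2), fl_eq 64 ((a + b) / 2),
    fl_eq 96 ((a + b) / 2)]
  generalize fl 0 a = x0 at *
  generalize fl 32 a = x1 at *
  generalize fl 64 a = x2 at *
  generalize fl 96 a = x3 at *
  generalize fl 0 b = y0 at *
  generalize fl 32 b = y1 at *
  generalize fl 64 b = y2 at *
  generalize fl 96 b = y3 at *
  norm_num at p0 p1 p2 p3 ⊢
  have q0 : (x0 + y0) % 2 = 0 := by omega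
  have q1 : (x1 + y1) % 2 = 0 := by omega
  have q2 : (x2 + y2) % 2 = 0 := by omega
  have q3 : (x3 + y3) % 2 = 0 := by omega
  obtain ⟨t0, e0⟩ : ∃ t, x0 + y0 = 2 * t := ⟨(x0 + y0) / 2, by omega⟩
  obtain ⟨t1, e1⟩ : ∃ t, x1 + y1 = 2 * t := ⟨(x1 + y1) / 2, by omega⟩
  obtain ⟨t2, e2⟩ : ∃ t, x2 + y2 = 2 * t := ⟨(x2 + y2) / 2, by omega⟩
  obtain ⟨t3, e3⟩ : ∃ t, x3 + y3 = 2 * t := ⟨(x3 + y3) / 2, by omega⟩
  have es : (a + b) / 2 = t0 + 4294967296 * t1 + 18446744073709551616 * t2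
      + 79228162514264337593543950336 * t3 := by omega
  rw [es]
  refine ⟨⟨?_, ?_, ?_, ?_⟩, ?_⟩ <;> omega

theorem gd_md {a b : ℕ} (ha : Gd a) (hb : Gd b) (h : pa a b = true) : Gd (md a b) := by
  obtain ⟨⟨e0, e1, e2, e3⟩, hlt⟩ := md_fl ha hb h
  have a0 := ha.b0
  have a1 := ha.b1
  have a2 := ha.b2
  have a3 := ha.b3
  have b0 := hb.b0
  have b1 := hb.b1
  have b2 := hb.b2
  have b3 := hb.b3
  have sa := ha.s
  have sb := hb.s
  exact ⟨by omega, by omega, by omega, by omega, by omega, hlt⟩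

theorem fr_md0 {a b : ℕ} (ha : Gd a) (hb : Gd b) (h : pa a b = true) :
    fr (md a b) = (1 / 2 : ℝ) • (fr a + fr b) := by
  obtain ⟨⟨e0, e1, e2, e3⟩, _⟩ := md_fl ha hb h
  have f0 : (2 : ℝ) * (fl 0 (md a b) : ℝ) = fl 0 a + fl 0 b := by exact_mod_cast e0
  have f1 : (2 : ℝ) * (fl 32 (md a b) : ℝ) = fl 32 a + fl 32 b := by exact_mod_cast e1
  have f2 : (2 : ℝ) * (fl 64 (md a b) : ℝ) = fl 64 a + fl 64 b := by exact_mod_cast e2
  have f3 : (2 : ℝ) * (fl 96 (md a b) : ℝ) = fl 96 a + fl 96 b := by exact_mod_cast e3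
  funext j
  fin_cases j
  · show (fl 0 (md a b) : ℝ) / 65536 - 1 = 1 / 2 * (((fl 0 a : ℝ) / 65536 - 1) + ((fl 0 b : ℝ) / 65536 - 1))
    linear_combination f0 / 131072
  · show (fl 32 (md a b) : ℝ) / 65536 - 1 = 1 / 2 * (((fl 32 a : ℝ) / 65536 - 1) + ((fl 32 b : ℝ) / 65536 - 1))
    linear_combination f1 / 131072
  · show (fl 64 (md a b) : ℝ) / 65536 - 1 = 1 / 2 * (((fl 64 a : ℝ) / 65536 - 1) + ((fl 64 b : ℝ) / 65536 - 1))
    linear_combination f2 / 131072
  · show (fl 96 (md a b) : ℝ) / 65536 - 1 = 1 / 2 * (((fl 96 a : ℝ) / 65536 - 1) + ((fl 96 b : ℝ) / 65536 - 1))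
    linear_combination f3 / 131072


theorem fr_md {v w : ℕ} (hv : Gd v) (hw : Gd w) (h : pa v w = true) (j : Fin 4) :
    fr (md v w) j = (fr v j + fr w j) / 2 := by
  rw [fr_md0 hv hw h]
  simp only [Pi.add_apply, Pi.smul_apply, smul_eq_mul]
  ring

def sa0 (c : Col) : Col := ⟨md c.a c.b, c.b, c.c⟩
def sb0 (c : Col) : Col := ⟨c.a, md c.a c.b, c.c⟩
def sa1 (c : Col) : Col := ⟨c.a, md c.b c.c, c.c⟩
def sb1 (c : Col) : Col := ⟨c.a, c.b, md c.b c.c⟩
def sa2 (c : Col) : Col := ⟨c.a, c.b, md c.c c.a⟩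
def sb2 (c : Col) : Col := ⟨md c.c c.a, c.b, c.c⟩
def p0 (c : Col) : Bool := pa c.a c.b
def p1 (c : Col) : Bool := pa c.b c.c
def p2 (c : Col) : Bool := pa c.c c.a

lemma gd_of {x y z : ℕ} (hx : Gd x) (hy : Gd y) (hz : Gd z) : ∀ i, Gd (vt ⟨x, y, z⟩ i) := by
  intro i
  fin_cases i
  · exact hx
  · exact hy
  · exact hz

lemma gd_s0 {c : Col} (h : ∀ i, Gd (vt c i)) (hp : p0 c = true) :
    (∀ i, Gd (vt (sa0 c) i)) ∧ (∀ i, Gd (vt (sb0 c) i)) :=
  ⟨gd_of (gd_md (h 0) (h 1) hp) (h 1) (h 2), gd_of (h 0) (gd_md (h 0) (h 1) hp) (h 2)⟩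

lemma gd_s1 {c : Col} (h : ∀ i, Gd (vt c i)) (hp : p1 c = true) :
    (∀ i, Gd (vt (sa1 c) i)) ∧ (∀ i, Gd (vt (sb1 c) i)) :=
  ⟨gd_of (h 0) (gd_md (h 1) (h 2) hp) (h 2), gd_of (h 0) (h 1) (gd_md (h 1) (h 2) hp)⟩

lemma gd_s2 {c : Col} (h : ∀ i, Gd (vt c i)) (hp : p2 c = true) :
    (∀ i, Gd (vt (sa2 c) i)) ∧ (∀ i, Gd (vt (sb2 c) i)) :=
  ⟨gd_of (h 0) (h 1) (gd_md (h 2) (h 0) hp), gd_of (gd_md (h 2) (h 0) hp) (h 1) (h 2)⟩

/-- a column lies in the triangle -/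
def InT (T : Col) (x : Fin 4 → ℝ) : Prop :=
  ∃ w : Fin 3 → ℝ, (∀ i, 0 ≤ w i) ∧ ∑ i, w i = 1 ∧ x = ∑ i, w i • fr (vt T i)

lemma inT_iff {T : Col} {x : Fin 4 → ℝ} : InT T x ↔ ∃ u v w : ℝ, 0 ≤ u ∧ 0 ≤ v ∧ 0 ≤ w ∧
    u + v + w = 1 ∧ ∀ j, x j = u * fr T.a j + v * fr T.b j + w * fr T.c j := by
  constructor
  · rintro ⟨w, h0, h1, h2⟩
    refine ⟨w 0, w 1, w 2, h0 0, h0 1, h0 2, ?_, ?_⟩
    · rw [Fin.sum_univ_three] at h1; exact h1
    · intro j
      rw [Fin.sum_univ_three] at h2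
      rw [h2]
      rfl
  · rintro ⟨u, v, w, hu, hv, hw, h1, h2⟩
    refine ⟨![u, v, w], ?_, ?_, ?_⟩
    · intro i
      fin_cases i
      · exact hu
      · exact hv
      · exact hw
    · rw [Fin.sum_univ_three]; exact h1
    · funext j
      rw [Fin.sum_univ_three, h2 j]
      rfl

/-- splitting the edge a b -/
theorem split0 {c : Col} (h : ∀ i, Gd (vt c i)) (hp : p0 c = true) {x : Fin 4 → ℝ} (hx : InT c x) :
    InT (sa0 c) x ∨ InT (sb0 c) x := by
  obtain ⟨u, v, w, hu, hv, hw, h1, h2⟩ := inT_iff.1 hx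
  have hm : ∀ j, fr (md c.a c.b) j = (fr c.a j + fr c.b j) / 2 := fun j => fr_md (h 0) (h 1) hp j
  rcases le_total u v with h3 | h3
  · left
    refine inT_iff.2 ⟨2 * u, v - u, w, by linarith, by linarith, by linarith, by linarith, fun j => ?_⟩
    have h4 := hm j
    show x j = (2 * u) * fr (md c.a c.b) j + (v - u) * fr c.b j + (w) * fr c.c j
    rw [h2 j, h4]
    ring
  · right
    refine inT_iff.2 ⟨u - v, 2 * v, w, by linarith, by linarith, by linarith, by linarith, fun j => ?_⟩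
    have h4 := hm j
    show x j = (u - v) * fr c.a j + (2 * v) * fr (md c.a c.b) j + (w) * fr c.c j
    rw [h2 j, h4]
    ring

/-- splitting the edge b c -/
theorem split1 {c : Col} (h : ∀ i, Gd (vt c i)) (hp : p1 c = true) {x : Fin 4 → ℝ} (hx : InT c x) :
    InT (sa1 c) x ∨ InT (sb1 c) x := by
  obtain ⟨u, v, w, hu, hv, hw, h1, h2⟩ := inT_iff.1 hx
  have hm : ∀ j, fr (md c.b c.c) j = (fr c.b j + fr c.c j) / 2 := fun j => fr_md (h 1) (h 2) hp j
  rcases le_total v w with h3 | h3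
  · left
    refine inT_iff.2 ⟨u, 2 * v, w - v, by linarith, by linarith, by linarith, by linarith, fun j => ?_⟩
    have h4 := hm j
    show x j = (u) * fr c.a j + (2 * v) * fr (md c.b c.c) j + (w - v) * fr c.c j
    rw [h2 j, h4]
    ring
  · right
    refine inT_iff.2 ⟨u, v - w, 2 * w, by linarith, by linarith, by linarith, by linarith, fun j => ?_⟩
    have h4 := hm j
    show x j = (u) * fr c.a j + (v - w) * fr c.b j + (2 * w) * fr (md c.b c.c) j
    rw [h2 j, h4]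
    ring

/-- splitting the edge c a -/
theorem split2 {c : Col} (h : ∀ i, Gd (vt c i)) (hp : p2 c = true) {x : Fin 4 → ℝ} (hx : InT c x) :
    InT (sa2 c) x ∨ InT (sb2 c) x := by
  obtain ⟨u, v, w, hu, hv, hw, h1, h2⟩ := inT_iff.1 hx
  have hm : ∀ j, fr (md c.c c.a) j = (fr c.c j + fr c.a j) / 2 := fun j => fr_md (h 2) (h 0) hp j
  rcases le_total w u with h3 | h3
  · left
    refine inT_iff.2 ⟨u - w, v, 2 * w, by linarith, by linarith, by linarith, by linarith, fun j => ?_⟩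
    have h4 := hm j
    show x j = (u - w) * fr c.a j + (v) * fr c.b j + (2 * w) * fr (md c.c c.a) j
    rw [h2 j, h4]
    ring
  · right
    refine inT_iff.2 ⟨2 * u, v, w - u, by linarith, by linarith, by linarith, by linarith, fun j => ?_⟩
    have h4 := hm j
    show x j = (2 * u) * fr (md c.c c.a) j + (v) * fr c.b j + (w - u) * fr c.c j
    rw [h2 j, h4]
    ring

end Pool.Agent.Helper44.CK
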