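import Mathlib

set_option autoImplicit false

/-!
Packed vectors of digits: `pack B n d = ∑ s < n, d s * B ^ s`, with `B = 2 ^ w`.
Digitwise addition, subtraction, `land`, shift, maximum, minimum, the test for
nonnegativity, and uniqueness of digits modulo `B ^ n`.
-/

namespace Pool.Agent.Helper93.TET

/-- the packed number with digits `d 0, .., d (n-1)` -/
def pack (B n : ℕ) (d : ℕ → ℕ) : ℕ := ∑ s ∈ Finset.range n, d s * B ^ s

/-- the same for integer digits -/
def packZ (B n : ℕ) (d : ℕ → ℤ) : ℤ := ∑ s ∈ Finset.range n, d s * (B : ℤ) ^ s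

theorem pack_zero (B : ℕ) (d : ℕ → ℕ) : pack B 0 d = 0 := by simp [pack]

theorem pack_succ (B n : ℕ) (d : ℕ → ℕ) :
    pack B (n + 1) d = d 0 + B * pack B n (fun s => d (s + 1)) := by
  unfold pack
  rw [Finset.sum_range_succ', Finset.mul_sum, add_comm]
  simp only [pow_zero, mul_one]
  congr 1
  exact Finset.sum_congr rfl fun s _ => by rw [pow_succ]; ring

theorem packZ_succ (B n : ℕ) (d : ℕ → ℤ) :
    packZ B (n + 1) d = d 0 + (B : ℤ) * packZ B n (fun s => d (s + 1)) := by
  unfold packZ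
  rw [Finset.sum_range_succ', Finset.mul_sum, add_comm]
  simp only [pow_zero, mul_one]
  congr 1
  exact Finset.sum_congr rfl fun s _ => by rw [pow_succ]; ring

theorem pack_congr {B n : ℕ} {d e : ℕ → ℕ} (h : ∀ s < n, d s = e s) : pack B n d = pack B n e :=
  Finset.sum_congr rfl fun s hs => by rw [h s (Finset.mem_range.1 hs)]

theorem packZ_congr {B n : ℕ} {d e : ℕ → ℤ} (h : ∀ s < n, d s = e s) : packZ B n d = packZ B n e :=
  Finset.sum_congr rfl fun s hs => by rw [h s (Finset.mem_range.1 hs)]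

theorem pack_cast (B n : ℕ) (d : ℕ → ℕ) : ((pack B n d : ℕ) : ℤ) = packZ B n (fun s => (d s : ℤ)) := by
  unfold pack packZ
  push_cast
  rfl

theorem pack_lt {B n : ℕ} {d : ℕ → ℕ} (h : ∀ s < n, d s < B) : pack B n d < B ^ n := by
  induction n generalizing d with
  | zero => simp [pack]
  | succ n ih =>
    rw [pack_succ]
    have h1 := ih (d := fun s => d (s + 1)) fun s hs => h (s + 1) (by omega)
    have h0 := h 0 (by omega)
    have h2 : B * (pack B n (fun s => d (s + 1)) + 1) ≤ B * B ^ n := Nat.mul_le_mul_left _ h1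
    rw [pow_succ']
    nlinarith

theorem pack_add (B n : ℕ) (d e : ℕ → ℕ) :
    pack B n d + pack B n e = pack B n (fun s => d s + e s) := by
  unfold pack
  rw [← Finset.sum_add_distrib]
  exact Finset.sum_congr rfl fun s _ => by ring

theorem pack_sub {B n : ℕ} {d e : ℕ → ℕ} (h : ∀ s < n, e s ≤ d s) :
    pack B n d - pack B n e = pack B n (fun s => d s - e s) := by
  have h1 : pack B n (fun s => d s - e s) + pack B n e = pack B n d := by
    rw [pack_add]
    exact pack_congr fun s hs => Nat.sub_add_cancel (h s hs)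
  omega

theorem pack_mul_const (B n c : ℕ) (d : ℕ → ℕ) : pack B n (fun s => c * d s) = c * pack B n d := by
  unfold pack
  rw [Finset.mul_sum]
  exact Finset.sum_congr rfl fun s _ => by ring

theorem land_add_mul (w a b x y : ℕ) (ha : a < 2 ^ w) (hb : b < 2 ^ w) :
    (a + 2 ^ w * x) &&& (b + 2 ^ w * y) = (a &&& b) + 2 ^ w * (x &&& y) := by
  have hab : a &&& b < 2 ^ w := lt_of_le_of_lt Nat.and_le_left ha
  apply Nat.eq_of_testBit_eq
  intro i
  rw [Nat.testBit_and]
  rw [add_comm a, add_comm b, add_comm (a &&& b)]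
  rw [Nat.testBit_two_pow_mul_add _ ha, Nat.testBit_two_pow_mul_add _ hb,
    Nat.testBit_two_pow_mul_add _ hab]
  by_cases hi : i < w
  · simp [hi]
  · simp [hi]

theorem pack_land {w n : ℕ} {d e : ℕ → ℕ} (hd : ∀ s < n, d s < 2 ^ w) (he : ∀ s < n, e s < 2 ^ w) :
    Nat.land (pack (2 ^ w) n d) (pack (2 ^ w) n e) = pack (2 ^ w) n (fun s => Nat.land (d s) (e s)) := by
  induction n generalizing d e with
  | zero => simp [pack]
  | succ n ih =>
    rw [pack_succ, pack_succ, pack_succ]
    have h1 := ih (d := fun s => d (s + 1)) (e := fun s => e (s + 1))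
      (fun s hs => hd (s + 1) (by omega)) (fun s hs => he (s + 1) (by omega))
    have h2 := land_add_mul w (d 0) (e 0) (pack (2 ^ w) n (fun s => d (s + 1)))
      (pack (2 ^ w) n (fun s => e (s + 1))) (hd 0 (by omega)) (he 0 (by omega))
    rw [← h1]
    exact h2

theorem pack_shift {B n k : ℕ} (m : ℕ → ℕ) :
    Nat.shiftRight (pack B n (fun s => 2 ^ k * m s)) k = pack B n m := by
  rw [pack_mul_const]
  show (2 ^ k * pack B n m) >>> k = pack B n m
  rw [Nat.shiftRight_eq_div_pow]
  exact Nat.mul_div_cancel_left _ (by positivity)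

/-! ### single digits -/

theorem land_top {w v : ℕ} (hv : v < 2 ^ (w + 1)) :
    Nat.land v (2 ^ w) = if 2 ^ w ≤ v then 2 ^ w else 0 := by
  show v &&& 2 ^ w = _
  apply Nat.eq_of_testBit_eq
  intro i
  rw [Nat.testBit_and, Nat.testBit_two_pow]
  by_cases hi : w = i
  · subst hi
    by_cases hv2 : 2 ^ w ≤ v
    · rw [if_pos hv2]
      have : v.testBit w = true := by
        have h3 : v = 2 ^ w * 1 + (v - 2 ^ w) := by omega
        have h4 : v - 2 ^ w < 2 ^ w := by rw [pow_succ] at hv; omega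
        rw [h3, Nat.testBit_two_pow_mul_add _ h4]
        simp
      simp [this, Nat.testBit_two_pow_self]
    · rw [if_neg hv2]
      simp [Nat.testBit_lt_two_pow (not_le.1 hv2)]
  · by_cases hv2 : 2 ^ w ≤ v
    · rw [if_pos hv2, Nat.testBit_two_pow]
      simp [hi]
    · rw [if_neg hv2]
      simp [hi]

theorem land_ones {w a : ℕ} (ha : a < 2 ^ w) : Nat.land a (2 ^ w - 1) = a := by
  show a &&& (2 ^ w - 1) = a
  rw [Nat.and_two_pow_sub_one_eq_mod]
  exact Nat.mod_eq_of_lt ha

theorem land_zero_right (a : ℕ) : Nat.land a 0 = 0 := by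
  show a &&& 0 = 0
  simp

/-- the mask: digit `2^w - 1` where `b ≤ a`, else `0` (digits of width `w + 1`) -/
theorem mask_eq {w n : ℕ} {a b : ℕ → ℕ} (ha : ∀ s < n, a s < 2 ^ w) (hb : ∀ s < n, b s < 2 ^ w) :
    Nat.sub (Nat.land (Nat.sub (Nat.add (pack (2 ^ (w + 1)) n a) (pack (2 ^ (w + 1)) n fun _ => 2 ^ w))
        (pack (2 ^ (w + 1)) n b)) (pack (2 ^ (w + 1)) n fun _ => 2 ^ w))
      (Nat.shiftRight (Nat.land (Nat.sub (Nat.add (pack (2 ^ (w + 1)) n a)
        (pack (2 ^ (w + 1)) n fun _ => 2 ^ w))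
        (pack (2 ^ (w + 1)) n b)) (pack (2 ^ (w + 1)) n fun _ => 2 ^ w)) w) =
      pack (2 ^ (w + 1)) n (fun s => if b s ≤ a s then 2 ^ w - 1 else 0) := by
  have e1 : Nat.sub (Nat.add (pack (2 ^ (w + 1)) n a) (pack (2 ^ (w + 1)) n fun _ => 2 ^ w))
      (pack (2 ^ (w + 1)) n b) = pack (2 ^ (w + 1)) n (fun s => a s + 2 ^ w - b s) := by
    show (pack (2 ^ (w + 1)) n a + pack (2 ^ (w + 1)) n fun _ => 2 ^ w) - pack (2 ^ (w + 1)) n b = _
    rw [pack_add, pack_sub]
    intro s hs
    have := hb s hs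
    omega
  have e2 : Nat.land (Nat.sub (Nat.add (pack (2 ^ (w + 1)) n a) (pack (2 ^ (w + 1)) n fun _ => 2 ^ w))
      (pack (2 ^ (w + 1)) n b)) (pack (2 ^ (w + 1)) n fun _ => 2 ^ w) =
      pack (2 ^ (w + 1)) n (fun s => 2 ^ w * (if b s ≤ a s then 1 else 0)) := by
    rw [e1, pack_land]
    · refine pack_congr fun s hs => ?_
      have h1 := ha s hs
      have h2 := hb s hs
      have h3 : a s + 2 ^ w - b s < 2 ^ (w + 1) := by rw [pow_succ]; omega
      show Nat.land (a s + 2 ^ w - b s) (2 ^ w) = _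
      rw [land_top h3]
      by_cases h4 : b s ≤ a s
      · rw [if_pos h4, if_pos (by omega), mul_one]
      · rw [if_neg h4, if_neg (by omega), mul_zero]
    · intro s hs
      have h1 := ha s hs
      have h2 := hb s hs
      show a s + 2 ^ w - b s < 2 ^ (w + 1)
      rw [pow_succ]; omega
    · intro s _
      exact Nat.pow_lt_pow_right (by norm_num) (by omega)
  rw [e2, pack_shift]
  show pack (2 ^ (w + 1)) n (fun s => 2 ^ w * (if b s ≤ a s then 1 else 0)) -
    pack (2 ^ (w + 1)) n (fun s => if b s ≤ a s then 1 else 0) = _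
  rw [pack_sub]
  · refine pack_congr fun s _ => ?_
    show 2 ^ w * (if b s ≤ a s then 1 else 0) - (if b s ≤ a s then 1 else 0) = _
    split_ifs <;> simp
  · intro s _
    show (if b s ≤ a s then 1 else 0) ≤ 2 ^ w * (if b s ≤ a s then 1 else 0)
    have h1 : 1 ≤ 2 ^ w := Nat.one_le_two_pow
    split_ifs
    · rw [mul_one]; exact h1
    · simp

/-- digitwise maximum from the mask -/
theorem max_eq {w n : ℕ} {a b : ℕ → ℕ} (ha : ∀ s < n, a s < 2 ^ w) (hb : ∀ s < n, b s < 2 ^ w) :
    Nat.add (Nat.land (pack (2 ^ (w + 1)) n a)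
        (pack (2 ^ (w + 1)) n (fun s => if b s ≤ a s then 2 ^ w - 1 else 0)))
      (Nat.land (pack (2 ^ (w + 1)) n b) (Nat.sub (pack (2 ^ (w + 1)) n fun _ => 2 ^ w - 1)
        (pack (2 ^ (w + 1)) n (fun s => if b s ≤ a s then 2 ^ w - 1 else 0)))) =
      pack (2 ^ (w + 1)) n (fun s => max (a s) (b s)) := by
  have hw : 2 ^ w < 2 ^ (w + 1) := Nat.pow_lt_pow_right (by norm_num) (by omega)
  have e1 : Nat.sub (pack (2 ^ (w + 1)) n fun _ => 2 ^ w - 1)
      (pack (2 ^ (w + 1)) n (fun s => if b s ≤ a s then 2 ^ w - 1 else 0)) =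
      pack (2 ^ (w + 1)) n (fun s => if b s ≤ a s then 0 else 2 ^ w - 1) := by
    show (pack (2 ^ (w + 1)) n fun _ => 2 ^ w - 1) -
      (pack (2 ^ (w + 1)) n (fun s => if b s ≤ a s then 2 ^ w - 1 else 0)) = _
    rw [pack_sub]
    · refine pack_congr fun s _ => ?_
      show 2 ^ w - 1 - (if b s ≤ a s then 2 ^ w - 1 else 0) = _
      split_ifs <;> simp
    · intro s _
      show (if b s ≤ a s then 2 ^ w - 1 else 0) ≤ 2 ^ w - 1
      split_ifs <;> simp
  rw [e1, pack_land, pack_land]
  · show pack _ _ _ + pack _ _ _ = _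
    rw [pack_add]
    refine pack_congr fun s hs => ?_
    show Nat.land (a s) (if b s ≤ a s then 2 ^ w - 1 else 0) +
      Nat.land (b s) (if b s ≤ a s then 0 else 2 ^ w - 1) = _
    split_ifs with h
    · rw [land_ones (ha s hs), land_zero_right, add_zero, max_eq_left h]
    · rw [land_ones (hb s hs), land_zero_right, zero_add, max_eq_right (not_le.1 h).le]
  · intro s hs; exact (hb s hs).trans hw
  · intro s _
    show (if b s ≤ a s then 0 else 2 ^ w - 1) < 2 ^ (w + 1)
    split_ifs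
    · positivity
    · omega
  · intro s hs; exact (ha s hs).trans hw
  · intro s _
    show (if b s ≤ a s then 2 ^ w - 1 else 0) < 2 ^ (w + 1)
    split_ifs
    · omega
    · positivity

/-- digitwise minimum: sum minus maximum -/
theorem min_eq {B n : ℕ} (a b : ℕ → ℕ) :
    Nat.sub (Nat.add (pack B n a) (pack B n b)) (pack B n (fun s => max (a s) (b s))) =
      pack B n (fun s => min (a s) (b s)) := by
  show pack B n a + pack B n b - pack B n (fun s => max (a s) (b s)) = _
  rw [pack_add, pack_sub]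
  · refine pack_congr fun s _ => ?_
    show a s + b s - max (a s) (b s) = min (a s) (b s)
    omega
  · intro s _
    show max (a s) (b s) ≤ a s + b s
    omega

/-! ### uniqueness and the test -/

theorem unique_zero {B n : ℕ} (hB : 0 < B) {d : ℕ → ℤ} (hd : ∀ s < n, |d s| < B)
    (h : ((B : ℤ) ^ n) ∣ packZ B n d) : ∀ s < n, d s = 0 := by
  induction n generalizing d with
  | zero => intro s hs; omega
  | succ n ih =>
    rw [packZ_succ] at h
    have h0 : d 0 = 0 := by
      have h1 : (B : ℤ) ∣ d 0 + (B : ℤ) * packZ B n (fun s => d (s + 1)) :=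
        dvd_trans (dvd_pow_self _ (Nat.succ_ne_zero n)) h
      have h2 : (B : ℤ) ∣ d 0 := (Int.dvd_add_left (Dvd.intro _ rfl)).1 h1
      exact Int.eq_zero_of_abs_lt_dvd h2 (hd 0 (by omega))
    have h3 : ((B : ℤ) ^ n) ∣ packZ B n (fun s => d (s + 1)) := by
      rw [h0, zero_add, pow_succ'] at h
      exact (mul_dvd_mul_iff_left (by exact_mod_cast hB.ne')).1 h
    have h4 := ih (d := fun s => d (s + 1)) (fun s hs => hd (s + 1) (by omega)) h3
    intro s hs
    rcases s with _ | s
    · exact h0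
    · exact h4 s (by omega)

theorem exists_digits {B n R : ℕ} (hB : 0 < B) (hR : R < B ^ n) :
    ∃ r : ℕ → ℕ, (∀ s, r s < B) ∧ R = pack B n r := by
  induction n generalizing R with
  | zero => exact ⟨fun _ => 0, fun _ => hB, by simp [pack] at *; omega⟩
  | succ n ih =>
    have h1 : R / B < B ^ n := by
      rw [Nat.div_lt_iff_lt_mul hB, ← pow_succ]
      exact hR
    obtain ⟨r, hr, he⟩ := ih h1
    refine ⟨fun s => if s = 0 then R % B else r (s - 1), ?_, ?_⟩
    · intro s
      show (if s = 0 then R % B else r (s - 1)) < B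
      split_ifs
      · exact Nat.mod_lt _ hB
      · exact hr _
    · rw [pack_succ]
      have h2 : pack B n (fun s => if s + 1 = 0 then R % B else r (s + 1 - 1)) = pack B n r :=
        pack_congr fun s _ => by simp
      rw [h2, ← he]
      simp only [if_true]
      exact (Nat.mod_add_div R B).symm

theorem pack_eq_zero {B n : ℕ} (hB : 0 < B) {d : ℕ → ℕ} (h : pack B n d = 0) : ∀ s < n, d s = 0 := by
  intro s hs
  have h1 : ∀ s ∈ Finset.range n, d s * B ^ s = 0 := by
    unfold pack at h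
    exact (Finset.sum_eq_zero_iff).1 h
  have h2 := h1 s (Finset.mem_range.2 hs)
  rcases Nat.mul_eq_zero.1 h2 with h3 | h3
  · exact h3
  · exact absurd h3 (by positivity)

/-- the digit test: if a residue `R` mod `B^n` of `∑ y s B^s`, `|y s| < 2^w`, `B = 2^(w+1)`, has no
top bits, then every `y s` is nonnegative -/
theorem test_nonneg {w n R : ℕ} {y : ℕ → ℤ} (hR : R < (2 ^ (w + 1)) ^ n)
    (hy : ∀ s < n, |y s| < 2 ^ w)
    (hmod : (((2 ^ (w + 1) : ℕ) : ℤ) ^ n) ∣ packZ (2 ^ (w + 1)) n y - (R : ℤ))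
    (ht : Nat.land R (pack (2 ^ (w + 1)) n fun _ => 2 ^ w) = 0) : ∀ s < n, 0 ≤ y s := by
  have hB : 0 < 2 ^ (w + 1) := by positivity
  obtain ⟨r, hr, he⟩ := exists_digits hB hR
  have hw : 2 ^ w < 2 ^ (w + 1) := Nat.pow_lt_pow_right (by norm_num) (by omega)
  have h1 : ∀ s < n, r s < 2 ^ w := by
    rw [he, pack_land (fun s _ => hr s) (fun s _ => hw)] at ht
    intro s hs
    have h2 := pack_eq_zero hB ht s hs
    by_contra h3
    have h4 : Nat.land (r s) (2 ^ w) = 2 ^ w := by
      rw [land_top (hr s), if_pos (not_lt.1 h3)]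
    have h5 : (2 : ℕ) ^ w ≠ 0 := by positivity
    exact h5 (h4.symm.trans h2)
  have h2 : ∀ s < n, y s - (r s : ℤ) = 0 := by
    apply unique_zero hB
    · intro s hs
      have h3 := hy s hs
      have h4 : ((r s : ℕ) : ℤ) < 2 ^ w := by exact_mod_cast h1 s hs
      have h5 : (0 : ℤ) ≤ (r s : ℤ) := Int.natCast_nonneg _
      rw [abs_lt] at h3 ⊢
      push_cast
      rw [pow_succ]
      constructor <;> linarith [h3.1, h3.2]
    · have h6 : packZ (2 ^ (w + 1)) n (fun s => y s - (r s : ℤ)) =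
          packZ (2 ^ (w + 1)) n y - (R : ℤ) := by
        rw [he, pack_cast]
        unfold packZ
        rw [← Finset.sum_sub_distrib]
        exact Finset.sum_congr rfl fun s _ => by ring
      rw [h6]
      exact hmod
  intro s hs
  have h3 := h2 s hs
  have h4 : (0 : ℤ) ≤ (r s : ℤ) := Int.natCast_nonneg _
  linarith

/-- exact value: a residue of a packed vector with digits in `[0, B)` is that packed number -/
theorem eq_of_residue {B n R : ℕ} {d : ℕ → ℕ} (hR : R < B ^ n) (hd : ∀ s < n, d s < B)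
    (hmod : ((B : ℤ) ^ n) ∣ packZ B n (fun s => (d s : ℤ)) - (R : ℤ)) : R = pack B n d := by
  have h1 := pack_lt hd
  rw [← pack_cast] at hmod
  have h2 : |((pack B n d : ℕ) : ℤ) - (R : ℤ)| < (B : ℤ) ^ n := by
    have h3 : ((pack B n d : ℕ) : ℤ) < (B : ℤ) ^ n := by exact_mod_cast h1
    have h4 : ((R : ℕ) : ℤ) < (B : ℤ) ^ n := by exact_mod_cast hR
    have h5 : (0 : ℤ) ≤ ((pack B n d : ℕ) : ℤ) := Int.natCast_nonneg _
    have h6 : (0 : ℤ) ≤ (R : ℤ) := Int.natCast_nonneg _
    rw [abs_lt]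
    constructor <;> linarith
  have h3 := Int.eq_zero_of_abs_lt_dvd hmod h2
  have h4 : ((R : ℕ) : ℤ) = ((pack B n d : ℕ) : ℤ) := by linarith
  exact_mod_cast h4

end Pool.Agent.Helper93.TET
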